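import Pool.Agent.Helper66.EAM.CaseDefs
import Pool.Agent.Helper66.EAM.Res3

set_option autoImplicit false

namespace Pool.Agent.Results.MP_37ff18_mp.CovariantDichotomy2D

open MeasureTheory Pool.H66.EAM

/-- **Dichotomy** for the ground states of the two-dimensional Edwards-Anderson model, for every
coupling law `μ` without atoms: exactly one of the cases A (a covariant ground state exists; then it
is essentially the only one, all ground states agree with it up to density zero, and the number of
ground states is two or infinite) and B (ground states which disagree with positive density exist,
and no covariant choice of a ground state exists) holds. -/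
theorem result (μ : Measure ℝ) [IsProbabilityMeasure μ] (hμ : ∀ x : ℝ, μ {x} = 0) :
    (CaseA μ ∨ CaseB μ) ∧ ¬ (CaseA μ ∧ CaseB μ) :=
  main3 μ hμ

end Pool.Agent.Results.MP_37ff18_mp.CovariantDichotomy2D
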