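import Pool.Agent.Helper66.EAM.StatDefs
import Pool.Agent.Helper66.EAM.Res4

set_option autoImplicit false

namespace Pool.Agent.Results.MP_37ff18_mp.UniformBonds2D

open MeasureTheory Pool.H66.EAM

/-- **Uniform law of large numbers for all ground states** of the two-dimensional
Edwards-Anderson model, for every coupling law without atoms. -/
theorem result (μ : Measure ℝ) [IsProbabilityMeasure μ] (hμ : ∀ x : ℝ, μ {x} = 0) :
    (∃ Q : Measure ((E → ℝ) × (V → ℝ)), StationaryLaw μ Q) ∧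
    ∃ m : Fin 2 → (E → ℝ) → ℝ, (∀ i, Measurable (m i)) ∧ (∀ i J, |m i J| ≤ 1) ∧
      ∀ (i : Fin 2) (g : (E → ℝ) → ℝ), Measurable g → (∃ C : ℝ, ∀ J, |g J| ≤ C) →
        (∀ Q : Measure ((E → ℝ) × (V → ℝ)), StationaryLaw μ Q →
          ∫ p, g p.1 * bond p.2 (0, i) ∂Q
            = ∫ J, g J * m i J ∂(Measure.infinitePi fun _ : E => μ)) ∧
        ((∃ S : Finset E, ∀ J J' : E → ℝ, (∀ e ∈ S, J e = J' e) → g J = g J') →
          ∀ᵐ J ∂(Measure.infinitePi fun _ : E => μ), ∀ ε > 0, ∃ M₀ : ℕ, ∀ M ≥ M₀, ∀ σ : V → ℝ,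
            IsGroundIn (box (2 * M)) J σ →
              |(∑ x ∈ box M, g (shJ x J) * bond σ (x, i)) / ((box M).card : ℝ)
                - ∫ J', g J' * m i J' ∂(Measure.infinitePi fun _ : E => μ)| ≤ ε) :=
  main4 μ hμ

end Pool.Agent.Results.MP_37ff18_mp.UniformBonds2D
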